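import Pool.Agent.Lib.MP_468ee0_co.UMain

set_option autoImplicit false

namespace Pool.Agent.Results.MP_468ee0_co.QuadraticAllK

/-- For all complexes, all dimensions `r` and all `k`, the conjectured bound holds with
`4000 k^2` in place of `C(k,2)`. -/
theorem result :
  ∀ (n : ℕ) (X : Finset (Finset (Fin n))),
    (∀ s ∈ X, ∀ t : Finset (Fin n), t ⊆ s → t.Nonempty → t ∈ X) →
    ∀ r : ℕ, 1 ≤ r → ∀ S : Finset {σ : Finset (Fin n) // σ ∈ X ∧ σ.card = r},
      ∑ i ∈ S, (Matrix.isHermitian_mul_conjTranspose_self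
        (Matrix.of (fun (σ : {σ : Finset (Fin n) // σ ∈ X ∧ σ.card = r})
            (τ : {τ : Finset (Fin n) // τ ∈ X ∧ τ.card = r + 1}) =>
            if σ.1 ⊆ τ.1 then
              ((-1 : ℝ) ^ (∑ v ∈ τ.1 \ σ.1, (τ.1.filter (fun w => w < v)).card))
            else 0))).eigenvalues i
      ≤ ((X.filter (fun s => s.card = r + 1)).card : ℝ)
          + 4000 * (S.card : ℝ) ^ 2 + (r : ℝ) * (S.card : ℝ) := by
  obtain ⟨K0, h⟩ := Pool.Agent.Lib.MP_468ee0_co.umain
  intro n X hX r hr S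
  have h1 := h n X hX r hr S
  by_cases g : S.card < K0
  · rw [if_pos g] at h1
    exact h1
  · rw [if_neg g] at h1
    refine h1.trans ?_
    have h2 : ((S.card.choose 2 : ℕ) : ℝ) ≤ 4000 * (S.card : ℝ) ^ 2 := by
      rw [Nat.cast_choose_two]
      have h3 : (0 : ℝ) ≤ S.card := Nat.cast_nonneg _
      nlinarith [sq_nonneg (S.card : ℝ)]
    linarith

end Pool.Agent.Results.MP_468ee0_co.QuadraticAllK
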