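import Pool.Agent.Lib.MP_468ee0_co.UMain

set_option autoImplicit false

namespace Pool.Agent.Results.MP_468ee0_co.UniformK

/-- There is an absolute constant `K0` such that the conjectured bound holds for all complexes, all
dimensions `r` and all `k ≥ K0`. -/
theorem result :
  ∃ K0 : ℕ, ∀ (n : ℕ) (X : Finset (Finset (Fin n))),
    (∀ s ∈ X, ∀ t : Finset (Fin n), t ⊆ s → t.Nonempty → t ∈ X) →
    ∀ r : ℕ, 1 ≤ r → ∀ S : Finset {σ : Finset (Fin n) // σ ∈ X ∧ σ.card = r},
      K0 ≤ S.card →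
      ∑ i ∈ S, (Matrix.isHermitian_mul_conjTranspose_self
        (Matrix.of (fun (σ : {σ : Finset (Fin n) // σ ∈ X ∧ σ.card = r})
            (τ : {τ : Finset (Fin n) // τ ∈ X ∧ τ.card = r + 1}) =>
            if σ.1 ⊆ τ.1 then
              ((-1 : ℝ) ^ (∑ v ∈ τ.1 \ σ.1, (τ.1.filter (fun w => w < v)).card))
            else 0))).eigenvalues i
      ≤ ((X.filter (fun s => s.card = r + 1)).card : ℝ)
          + ((S.card.choose 2 : ℕ) : ℝ) + (r : ℝ) * (S.card : ℝ) := by
  obtain ⟨K0, h⟩ := Pool.Agent.Lib.MP_468ee0_co.umain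
  refine ⟨K0, fun n X hX r hr S g => ?_⟩
  have h1 := h n X hX r hr S
  rw [if_neg (not_lt.2 g)] at h1
  exact h1

end Pool.Agent.Results.MP_468ee0_co.UniformK
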